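import Pool.Agent.H87.AX.Targets4
import Pool.Agent.H11.SN.EN1

/-!
# Row EA1 of the board `axs_modules` (MP_2697e3_an)
-/

set_option autoImplicit false

namespace Pool.Agent.H35.AX

open Pool.Agent.H87.SN Pool.Agent.H87.SH Pool.Agent.H87.AX Pool.Agent.H11.SN
open MeasureTheory Metric Set Filter Topology
open scoped ContDiff RealInnerProductSpace ENNReal

noncomputable section

/-- Maximum points of a cutoff function are critical. -/
theorem gsq_eq_zero_of_eq_one {n : ℕ} {χ : E n → ℝ} (h : ∀ x, χ x ≤ 1) {x : E n}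
    (hx : χ x = 1) : gsq χ x = 0 := by
  have h1 : IsLocalMax χ x := Eventually.of_forall fun y => by
    show χ y ≤ χ x
    rw [hx]
    exact h y
  unfold gsq
  rw [h1.fderiv_eq_zero]
  simp [nsq]

theorem pf_EA1 (hROT : T_ROT) (hLA1 : T_LA1) (hCUT : T_CUT) (hINN : T_INN) (hANT : T_ANT) :
    T_EA1 := by
  intro d C₀ C₁ M
  obtain ⟨ζ, L, hζC, hζ01, hζrad, hζ1, hζ0, hL0, hζL⟩ :=
    hCUT (d + 2) (3 / 2) (7 / 4) (by norm_num) (by norm_num)
  obtain ⟨C, hC0, hC⟩ := hINN d M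
  obtain ⟨K', hK'⟩ : ∃ K' : ℝ, K' = 4 * |C₀| * (L ^ 2 + C + |C₀|) := ⟨_, rfl⟩
  have hK'0 : 0 ≤ K' := by rw [hK']; positivity
  refine ⟨100 * K' + 100 * |C₀|, by positivity, ?_⟩
  intro r hr hrpos hrM η w hW V χv hV m u G τ nd
  obtain ⟨χi, hχC, hχ01, hχrot, hχ0, hχ1, hχg, hχg0⟩ := hC r hr hrpos hrM
  obtain ⟨χ₂, hχ₂⟩ : ∃ χ₂ : E (d + 2) → ℝ, χ₂ = fun x => ζ x * χi x := ⟨_, rfl⟩
  obtain ⟨χ, hχ⟩ : ∃ χ : E (d + 2) → ℝ, χ = fun x => χ₂ x * χv x := ⟨_, rfl⟩
  have hχ₂x : ∀ x, χ₂ x = ζ x * χi x := fun x => by rw [hχ₂]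
  have hχx : ∀ x, χ x = χ₂ x * χv x := fun x => by rw [hχ]
  have hχ₂01 : ∀ x, 0 ≤ χ₂ x ∧ χ₂ x ≤ 1 := fun x => by
    rw [hχ₂x]
    exact ⟨mul_nonneg (hζ01 x).1 (hχ01 x).1, mul_le_one₀ (hζ01 x).2 (hχ01 x).1 (hχ01 x).2⟩
  have hrc : Continuous r := hr.continuous
  have hNO : IsOpen (neck r) := isOpen_neck hrc
  have hP0 : IsOpen {x : E (d + 2) | 0 < rho x} := isOpen_lt continuous_const continuous_rho
  have hζC1 : ContDiff ℝ 1 ζ := hζC.of_le (by exact_mod_cast le_top)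
  have hχ₂C1 : ContDiff ℝ 1 χ₂ := by rw [hχ₂]; exact hζC1.mul hχC
  -- vanishing near the axis
  have haxis : ∀ x : E (d + 2), rho x < 9 / 8 * r (zp x) → ∀ᶠ y in 𝓝 x, χ y = 0 := by
    intro x hx
    have h1 : IsOpen {x : E (d + 2) | rho x < 9 / 8 * r (zp x)} :=
      isOpen_lt continuous_rho (continuous_const.mul (hrc.comp continuous_zp))
    filter_upwards [h1.mem_nhds hx] with y hy
    rw [hχx, hχ₂x, hχ0 y (le_of_lt hy), mul_zero, zero_mul]
  have hχC1 : ContDiff ℝ 1 χ := by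
    rw [contDiff_iff_contDiffAt]
    intro x
    by_cases hx : 0 < rho x
    · rw [hχ]
      exact hχ₂C1.contDiffAt.mul (hV.C1.contDiffAt (hP0.mem_nhds hx))
    · have h1 : rho x < 9 / 8 * r (zp x) := by
        have := hrpos (zp x)
        push Not at hx
        linarith
      have h2 : χ =ᶠ[𝓝 x] fun _ => (0 : ℝ) := haxis x h1
      exact contDiffAt_const.congr_of_eventuallyEq h2
  have hsupp : Function.support χ ⊆ {x | ‖x‖ ≤ 7 / 4 ∧ 9 / 8 * r (zp x) ≤ rho x} := by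
    intro x hx
    rw [Function.mem_support, hχx, hχ₂x] at hx
    constructor
    · by_contra h
      push Not at h
      exact hx (by rw [hζ0 x h.le, zero_mul, zero_mul])
    · by_contra h
      push Not at h
      exact hx (by rw [hχ0 x h.le, mul_zero, zero_mul])
  have hclosed : IsClosed {x : E (d + 2) | ‖x‖ ≤ 7 / 4 ∧ 9 / 8 * r (zp x) ≤ rho x} :=
    (isClosed_le continuous_norm continuous_const).inter
      (isClosed_le (continuous_const.mul (hrc.comp continuous_zp)) continuous_rho)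
  have hts : tsupport χ ⊆ {x | ‖x‖ ≤ 7 / 4 ∧ 9 / 8 * r (zp x) ≤ rho x} :=
    closure_minimal hsupp hclosed
  obtain ⟨U, hUdef⟩ : ∃ U : Set (E (d + 2)), U = V ∩ neck r := ⟨_, rfl⟩
  have hU : IsOpen U := by rw [hUdef]; exact nd.opn.inter hNO
  have hUV : U ⊆ V := by rw [hUdef]; exact inter_subset_left
  have hUN : U ⊆ neck r := by rw [hUdef]; exact inter_subset_right
  have htsU : tsupport χ ⊆ U := fun x hx => by
    obtain ⟨h1, h2⟩ := hts hx
    have h3 := hrpos (zp x)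
    rw [hUdef]
    refine ⟨?_, mem_ball_zero_iff.mpr (by linarith), ?_⟩
    · by_contra h4
      have h5 := hV.van x (mem_closedBall_zero_iff.mpr h1) (by linarith) h4
      have h6 : χ =ᶠ[𝓝 x] 0 := by
        filter_upwards [h5] with y hy
        rw [hχx, hy, mul_zero]
        rfl
      exact (notMem_tsupport_iff_eventuallyEq.mpr h6) hx
    · show r (zp x) < rho x
      linarith
  have hcs : HasCompactSupport χ :=
    IsCompact.of_isClosed_subset (isCompact_closedBall (0 : E (d + 2)) (7 / 4))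
      (isClosed_tsupport χ) (fun x hx => mem_closedBall_zero_iff.mpr (hts hx).1)
  have hpos : ∀ x ∈ U, 0 < rho x := fun x hx => nd.pos x (hUV hx)
  have hRS : RotSet U := by
    intro θ x hx
    have hxV := hUV hx
    have hxN := hUN hx
    rw [hUdef]
    refine ⟨nd.rotU θ x hxV, ?_, ?_⟩
    · rw [mem_ball_zero_iff, (hROT d).norm]; exact mem_ball_zero_iff.mp hxN.1
    · rw [(hROT d).zp, (hROT d).rho]; exact hxN.2
  have hχrot' : ∀ (θ : ℝ) (x : E (d + 2)), χ (rot θ x) = χ x := by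
    intro θ x
    rw [hχx, hχx, hχ₂x, hχ₂x, hχrot θ x, hζrad (rot θ x) x ((hROT d).norm θ x), hV.rotc θ x]
  have hmT : MemLp τ 2 (volume.restrict U) :=
    nd.memT.mono_measure (Measure.restrict_mono (hUV.trans nd.sub) le_rfl)
  have hang : ∫ x, χ x ^ 2 * w x * (rho x ^ 2)⁻¹ * ‖uth u x‖ ^ 2 ≤
      100 * (∫ x, w x * gsq χ x * ‖uth u x‖ ^ 2) +
      100 * ∫ x, χ x ^ 2 * w x * rho x ^ 2 * τ x ^ 2 :=
    hANT d m U u w χ τ hU hRS hpos (nd.smooth.mono hUV) hmT nd.tau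
      (fun x hx => nd.angb x (hUV hx)) (hW.w_C1.mono hpos)
      (fun x hx => hW.w_pos x (hpos x hx)) (fun θ x _ => hW.w_rot θ x)
      (fun x hx => hW.P6 x (hUN hx).1 (hUN hx).2) hχC1 hcs htsU hχrot'
  -- the bound of the integrand
  have key : ∀ x ∈ U, w x * gsq χ x * ‖uth u x‖ ^ 2 ≤ K' * nsq (fderiv ℝ u x) := by
    intro x hx
    have hxN := hUN hx
    have hrx := hpos x hx
    have hw := hW.w_pos x hrx
    have hn0 := nsq_nonneg (fderiv ℝ u x)
    have h1 : ‖uth u x‖ ^ 2 ≤ rho x ^ 2 * nsq (fderiv ℝ u x) := by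
      have h2 := hLA1 d m (fderiv ℝ u x) x
      have h3 := nzs_nonneg (fderiv ℝ u x)
      unfold uth
      nlinarith [mul_nonneg (sq_nonneg (rho x)) h3, sq_nonneg ‖fderiv ℝ u x (Pm d x)‖]
    have hg1 := gsq_nonneg χi x
    have hg2 := gsq_nonneg ζ x
    have hg3 := gsq_nonneg χv x
    have h4 : gsq χ x ≤ 4 * (gsq χi x + gsq ζ x + gsq χv x) := by
      have h5 : gsq χ₂ x ≤ 2 * (gsq χi x + gsq ζ x) := by
        rw [hχ₂]
        exact gsq_mul_le (hζC1.differentiable (by norm_num) x)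
          (hχC.differentiable (by norm_num) x) (hζ01 x) (hχ01 x)
      have h6 : gsq χ x ≤ 2 * (gsq χv x + gsq χ₂ x) := by
        rw [hχ]
        exact gsq_mul_le (hχ₂C1.differentiable (by norm_num) x)
          ((hV.C1.contDiffAt (hP0.mem_nhds hrx)).differentiableAt (by norm_num))
          (hχ₂01 x) (hV.bd x)
      linarith
    have h5 : w x * rho x ^ 2 * gsq ζ x ≤ |C₀| * L ^ 2 := by
      have h6 := hW.P7a x hxN.1 hrx
      refine mul_le_mul ?_ (hζL x) (gsq_nonneg _ _) (abs_nonneg _)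
      rw [mul_comm]
      exact h6.trans (le_abs_self _)
    have h8 : w x * rho x ^ 2 * gsq χi x ≤ |C₀| * C := by
      by_cases h9 : 2 * r (zp x) < rho x
      · rw [hχg0 x h9, mul_zero]; positivity
      · push Not at h9
        have h10 := hW.P7b x hxN.1 hxN.2.le h9
        calc w x * rho x ^ 2 * gsq χi x = w x * (rho x ^ 2 * gsq χi x) := by ring
          _ ≤ |C₀| * C := mul_le_mul (h10.trans (le_abs_self _)) (hχg x)
            (mul_nonneg (sq_nonneg _) (gsq_nonneg _ _)) (abs_nonneg _)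
    have h11 : w x * rho x ^ 2 * gsq χv x ≤ |C₀| * |C₀| := by
      rcases (hV.bd x).2.lt_or_eq with h12 | h12
      · have h13 := hV.wle x hxN.1 hrx h12
        calc w x * rho x ^ 2 * gsq χv x = w x * (rho x ^ 2 * gsq χv x) := by ring
          _ ≤ |C₀| * |C₀| := mul_le_mul (h13.trans (le_abs_self _))
            ((hV.gr x hrx).trans (le_abs_self _))
            (mul_nonneg (sq_nonneg _) (gsq_nonneg _ _)) (abs_nonneg _)
      · rw [gsq_eq_zero_of_eq_one (fun y => (hV.bd y).2) h12, mul_zero]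
        positivity
    calc w x * gsq χ x * ‖uth u x‖ ^ 2 ≤
        w x * (4 * (gsq χi x + gsq ζ x + gsq χv x)) * (rho x ^ 2 * nsq (fderiv ℝ u x)) := by
          refine mul_le_mul (mul_le_mul_of_nonneg_left h4 hw.le) h1 (sq_nonneg _) ?_
          exact mul_nonneg hw.le (by linarith)
      _ = 4 * (w x * rho x ^ 2 * gsq χi x + w x * rho x ^ 2 * gsq ζ x +
          w x * rho x ^ 2 * gsq χv x) * nsq (fderiv ℝ u x) := by ring
      _ ≤ 4 * (|C₀| * C + |C₀| * L ^ 2 + |C₀| * |C₀|) * nsq (fderiv ℝ u x) := by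
          refine mul_le_mul_of_nonneg_right ?_ hn0
          linarith
      _ = K' * nsq (fderiv ℝ u x) := by rw [hK']; ring
  have hsuppχ : ∀ x, x ∉ U → χ x = 0 := by
    intro x hx
    by_contra h
    exact hx (htsU (subset_tsupport _ h))
  have iG : Integrable (fun x => nsq (G x)) (volume.restrict (ball (0 : E (d + 2)) 2)) :=
    integrable_nsq nd.memG
  have iT : Integrable (fun x => τ x ^ 2) (volume.restrict (ball (0 : E (d + 2)) 2)) :=
    nd.memT.integrable_sq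
  have hR : ∫ x, w x * gsq χ x * ‖uth u x‖ ^ 2 ≤
      K' * ∫ x in ball (0 : E (d + 2)) 2, nsq (G x) := by
    have h0 : ∀ x, x ∉ U → w x * gsq χ x * ‖uth u x‖ ^ 2 = 0 := by
      intro x hx
      have h1 : x ∉ tsupport χ := fun h => hx (htsU h)
      have h2 : fderiv ℝ χ x = 0 := by
        by_contra h
        exact h1 (support_fderiv_subset ℝ h)
      have h3 : gsq χ x = 0 := by
        unfold gsq
        rw [h2]
        simp [nsq]
      rw [h3]
      ring
    rw [← setIntegral_eq_integral_of_forall_compl_eq_zero (s := ball (0 : E (d + 2)) 2)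
      (fun x hx => h0 x fun h => hx (hUN h).1), ← integral_const_mul]
    refine integral_mono_of_nonneg ?_ (iG.const_mul K') ?_
    · refine Eventually.of_forall fun x => ?_
      show 0 ≤ w x * gsq χ x * ‖uth u x‖ ^ 2
      by_cases hx : x ∈ U
      · exact mul_nonneg (mul_nonneg (hW.w_pos x (hpos x hx)).le (gsq_nonneg _ _)) (sq_nonneg _)
      · rw [h0 x hx]
    · have h4 : ∀ᵐ x ∂(volume : Measure (E (d + 2))), x ∈ V → G x = fderiv ℝ u x :=
        (ae_restrict_iff' nd.opn.measurableSet).mp nd.ae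
      filter_upwards [ae_restrict_of_ae h4] with x hx
      show w x * gsq χ x * ‖uth u x‖ ^ 2 ≤ K' * nsq (G x)
      by_cases hxn : x ∈ U
      · rw [hx (hUV hxn)]
        exact key x hxn
      · rw [h0 x hxn]
        exact mul_nonneg hK'0 (nsq_nonneg _)
  have hTt : ∫ x, χ x ^ 2 * w x * rho x ^ 2 * τ x ^ 2 ≤
      |C₀| * ∫ x in ball (0 : E (d + 2)) 2, τ x ^ 2 := by
    have h0 : ∀ x, x ∉ U → χ x ^ 2 * w x * rho x ^ 2 * τ x ^ 2 = 0 := by
      intro x hx
      rw [hsuppχ x hx]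
      ring
    rw [← setIntegral_eq_integral_of_forall_compl_eq_zero (s := ball (0 : E (d + 2)) 2)
      (fun x hx => h0 x fun h => hx (hUN h).1), ← integral_const_mul]
    refine integral_mono_of_nonneg ?_ (iT.const_mul _) ?_
    · refine Eventually.of_forall fun x => ?_
      show 0 ≤ χ x ^ 2 * w x * rho x ^ 2 * τ x ^ 2
      by_cases hx : x ∈ U
      · have := hW.w_pos x (hpos x hx)
        positivity
      · rw [h0 x hx]
    · refine Eventually.of_forall fun x => ?_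
      show χ x ^ 2 * w x * rho x ^ 2 * τ x ^ 2 ≤ |C₀| * τ x ^ 2
      by_cases hx : x ∈ U
      · have h1 := hW.P7a x (hUN hx).1 (hpos x hx)
        have h2 := hW.w_pos x (hpos x hx)
        have h3 : χ x ^ 2 ≤ 1 := by
          have h4 : 0 ≤ χ x ∧ χ x ≤ 1 := by
            rw [hχx]
            exact ⟨mul_nonneg (hχ₂01 x).1 (hV.bd x).1,
              mul_le_one₀ (hχ₂01 x).2 (hV.bd x).1 (hV.bd x).2⟩
          exact pow_le_one₀ h4.1 h4.2
        have h5 : χ x ^ 2 * (rho x ^ 2 * w x) ≤ 1 * |C₀| :=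
          mul_le_mul h3 (h1.trans (le_abs_self _)) (by positivity) zero_le_one
        have h6 : 0 ≤ τ x ^ 2 := sq_nonneg _
        calc χ x ^ 2 * w x * rho x ^ 2 * τ x ^ 2 = χ x ^ 2 * (rho x ^ 2 * w x) * τ x ^ 2 := by
              ring
          _ ≤ (1 * |C₀|) * τ x ^ 2 := mul_le_mul_of_nonneg_right h5 h6
          _ = |C₀| * τ x ^ 2 := by ring
      · rw [h0 x hx]
        positivity
  -- the left side
  have hS : MeasurableSet {x : E (d + 2) | x ∈ ball (0 : E (d + 2)) (3 / 2) ∧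
      2 * r (zp x) ≤ rho x} :=
    measurableSet_ball.inter
      (isClosed_le (continuous_const.mul (hrc.comp continuous_zp)) continuous_rho).measurableSet
  have huth : ContinuousOn (uth u) U := by
    have h1 : ContinuousOn (fderiv ℝ u) U :=
      (nd.smooth.mono hUV).continuousOn_fderiv_of_isOpen hU (by exact_mod_cast le_top)
    exact h1.clm_apply (Jm d).continuous.continuousOn
  have hI : Integrable (fun x => χ x ^ 2 * w x * (rho x ^ 2)⁻¹ * ‖uth u x‖ ^ 2)
      (volume : Measure (E (d + 2))) := by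
    have e : (fun x => χ x ^ 2 * w x * (rho x ^ 2)⁻¹ * ‖uth u x‖ ^ 2) =
        fun x => χ x * (χ x * w x * (rho x ^ 2)⁻¹ * ‖uth u x‖ ^ 2) := by
      funext x
      ring
    rw [e]
    refine Continuous.integrable_of_hasCompactSupport
      (continuous_mul_of_tsupport hU hχC1.continuous htsU ?_) hcs.mul_right
    refine ContinuousOn.mul (ContinuousOn.mul (ContinuousOn.mul hχC1.continuous.continuousOn
      (hW.w_C1.continuousOn.mono hpos)) ?_) (huth.norm.pow 2)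
    refine ContinuousOn.inv₀ (continuous_rho.pow 2).continuousOn fun x hx => ?_
    exact pow_ne_zero 2 (hpos x hx).ne'
  have hnn : ∀ x, 0 ≤ χ x ^ 2 * w x * (rho x ^ 2)⁻¹ * ‖uth u x‖ ^ 2 := by
    intro x
    by_cases hx : x ∈ U
    · have hw := hW.w_pos x (hpos x hx)
      positivity
    · rw [hsuppχ x hx]
      simp
  have hL1 : ∫ x in {x | x ∈ ball (0 : E (d + 2)) (3 / 2) ∧ 2 * r (zp x) ≤ rho x},
      χv x ^ 2 * (w x * ((rho x ^ 2)⁻¹ * ‖uth u x‖ ^ 2)) =
      ∫ x in {x | x ∈ ball (0 : E (d + 2)) (3 / 2) ∧ 2 * r (zp x) ≤ rho x},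
        χ x ^ 2 * w x * (rho x ^ 2)⁻¹ * ‖uth u x‖ ^ 2 := by
    refine setIntegral_congr_fun hS fun x hx => ?_
    have h1 : χ x = χv x := by
      rw [hχx, hχ₂x, hζ1 x (mem_ball_zero_iff.mp hx.1).le, hχ1 x hx.2, mul_one, one_mul]
    show χv x ^ 2 * (w x * ((rho x ^ 2)⁻¹ * ‖uth u x‖ ^ 2)) =
      χ x ^ 2 * w x * (rho x ^ 2)⁻¹ * ‖uth u x‖ ^ 2
    rw [h1]
    ring
  rw [hL1]
  have hL2 := setIntegral_le_integral
    (s := {x | x ∈ ball (0 : E (d + 2)) (3 / 2) ∧ 2 * r (zp x) ≤ rho x}) hI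
    (Eventually.of_forall hnn)
  have iGT : ∫ x in ball (0 : E (d + 2)) 2, (nsq (G x) + τ x ^ 2) =
      (∫ x in ball (0 : E (d + 2)) 2, nsq (G x)) + ∫ x in ball (0 : E (d + 2)) 2, τ x ^ 2 :=
    integral_add iG iT
  have iG0 : 0 ≤ ∫ x in ball (0 : E (d + 2)) 2, nsq (G x) :=
    integral_nonneg fun x => nsq_nonneg _
  have iT0 : 0 ≤ ∫ x in ball (0 : E (d + 2)) 2, τ x ^ 2 :=
    integral_nonneg fun x => sq_nonneg _
  rw [iGT]
  have hc0 : 0 ≤ |C₀| := abs_nonneg _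
  have m1 : 0 ≤ K' * ∫ x in ball (0 : E (d + 2)) 2, τ x ^ 2 := mul_nonneg hK'0 iT0
  have m2 : 0 ≤ |C₀| * ∫ x in ball (0 : E (d + 2)) 2, nsq (G x) := mul_nonneg hc0 iG0
  calc _ ≤ ∫ x, χ x ^ 2 * w x * (rho x ^ 2)⁻¹ * ‖uth u x‖ ^ 2 := hL2
    _ ≤ 100 * (∫ x, w x * gsq χ x * ‖uth u x‖ ^ 2) +
      100 * ∫ x, χ x ^ 2 * w x * rho x ^ 2 * τ x ^ 2 := hang
    _ ≤ (100 * K' + 100 * |C₀|) * ((∫ x in ball (0 : E (d + 2)) 2, nsq (G x)) +
        ∫ x in ball (0 : E (d + 2)) 2, τ x ^ 2) := by nlinarith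

end

end Pool.Agent.H35.AX
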