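import Pool.Agent.H87.AX.Targets4

/-!
# Row IDS of the board `axs_modules` (MP_2697e3_an)
-/

set_option autoImplicit false

namespace Pool.Agent.H35.AX

open Pool.Agent.H87.SN Pool.Agent.H87.SH Pool.Agent.H87.AX
open MeasureTheory Metric Set Filter Topology
open scoped ContDiff RealInnerProductSpace ENNReal

theorem TM.mono {m : ℕ} {L T T' : ℝ} {U U' : Set (E 2)} {v : E 2 → E m} (h : TM m L T U v)
    (hT : T ≤ T') (hU : U' ⊆ U) : TM m L T' U' v := by
  refine ⟨h.smooth.mono hU, fun x hx => h.lapb x (hU hx), fun x hx k => ?_, fun x hx k l => ?_⟩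
  · refine (h.tan x (hU hx) k).trans ?_
    have h1 : 0 ≤ (1 + Real.sqrt (en v x)) * ‖fderiv ℝ v x k‖ := by positivity
    nlinarith
  · refine (h.ang x (hU hx) k l).trans ?_
    have h1 : 0 ≤ (1 + Real.sqrt (en v x)) * ‖fderiv ℝ (fderiv ℝ v) x k k + fderiv ℝ v x l‖ := by
      positivity
    nlinarith

theorem engy_mono {m : ℕ} (v : E 2 → E m) {S S' : Set (E 2)} (h : S ⊆ S') :
    engy v S ≤ engy v S' := lintegral_mono_set h

theorem hInt_mono {m : ℕ} (v : E 2 → E m) {S S' : Set (E 2)} (h : S ⊆ S') :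
    hInt v S ≤ hInt v S' := lintegral_mono_set h

theorem hInt_union {m : ℕ} (v : E 2 → E m) (S S' : Set (E 2)) :
    hInt v (S ∪ S') ≤ hInt v S + hInt v S' := lintegral_union_le _ _ _

/-- covering -/
theorem hInt_cover {m : ℕ} {M : ℕ} {k : ℕ}
    (hM : ∀ (x : E 2) (ρ : ℝ) (A : Set (E 2)), 0 < ρ → A ⊆ closedBall x (k * ρ) →
      ∃ t : Finset (E 2), t.card ≤ M ∧ ↑t ⊆ A ∧ A ⊆ ⋃ c ∈ t, ball c ρ)
    (v : E 2 → E m) (x : E 2) (ρ : ℝ) (A : Set (E 2)) (K : ℝ) (hK : 0 ≤ K) (hρ : 0 < ρ)
    (hA : A ⊆ closedBall x (k * ρ)) (h : ∀ c ∈ A, hInt v (ball c ρ) ≤ ENNReal.ofReal K) :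
    hInt v A ≤ ENNReal.ofReal (M * K) := by
  obtain ⟨t, ht, htA, hcov⟩ := hM x ρ A hρ hA
  have h1 : hInt v A ≤ hInt v (⋃ c : t, ball (c : E 2) ρ) := by
    apply hInt_mono
    intro y hy
    have h2 := hcov hy
    rw [mem_iUnion₂] at h2
    obtain ⟨c, hc, hyc⟩ := h2
    exact mem_iUnion.2 ⟨⟨c, hc⟩, hyc⟩
  have h2 : hInt v (⋃ c : t, ball (c : E 2) ρ) ≤ ∑' c : t, hInt v (ball (c : E 2) ρ) :=
    lintegral_iUnion_le _ _
  have h3 : ∑' c : t, hInt v (ball (c : E 2) ρ) ≤ ENNReal.ofReal (M * K) := by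
    rw [tsum_fintype]
    calc ∑ c : t, hInt v (ball (c : E 2) ρ) ≤ ∑ _c : t, ENNReal.ofReal K :=
          Finset.sum_le_sum fun c _ => h c (htA c.2)
      _ = (t.card : ℝ≥0∞) * ENNReal.ofReal K := by
          rw [Finset.sum_const, Finset.card_univ, Fintype.card_coe, nsmul_eq_mul]
      _ ≤ (M : ℝ≥0∞) * ENNReal.ofReal K := by
          apply mul_le_mul_left
          exact_mod_cast ht
      _ = ENNReal.ofReal (M * K) := by
          rw [ENNReal.ofReal_mul (by positivity), ENNReal.ofReal_natCast]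
  exact h1.trans (h2.trans h3)

theorem measurable_en {m : ℕ} (v : E 2 → E m) : Measurable (fun x => en v x) := by
  unfold en nsq
  refine Finset.measurable_sum _ fun i _ => ?_
  exact (measurable_fderiv_apply_const ℝ v (bv i)).norm.pow_const 2

theorem continuousOn_en {m : ℕ} {v : E 2 → E m} {U : Set (E 2)} (hU : IsOpen U)
    (hv : ContDiffOn ℝ ∞ v U) : ContinuousOn (fun x => en v x) U := by
  have h1 : ContinuousOn (fderiv ℝ v) U :=
    hv.continuousOn_fderiv_of_isOpen hU (by norm_num)
  unfold en nsq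
  refine continuousOn_finsetSum _ fun i _ => ?_
  exact ((h1.clm_apply continuousOn_const).norm).pow 2

theorem en_nonneg {m : ℕ} (v : E 2 → E m) (x : E 2) : 0 ≤ en v x := by
  unfold en nsq
  exact Finset.sum_nonneg fun i _ => by positivity

theorem pf_IDS (hTMZ : T_TMZ) (hEP2 : T_EP2) (hLH2 : T_LH2) (hNC2 : T_NC2) (hCOV : T_COV)
    (hSCL : T_SCL) : T_IDS := by
  intro m L hL
  obtain ⟨δ, hδ, hNC⟩ := hNC2 m L hL
  set d := min δ 1 with hd
  have hd0 : 0 < d := lt_min hδ one_pos
  have hd1 : d ≤ 1 := min_le_right _ _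
  have hdδ : d ≤ δ := min_le_left _ _
  obtain ⟨ε, T₁, hε, hT₁, hEP⟩ := hEP2 m L (d / 4) hL (by positivity)
  set T₀ := min T₁ 1 with hT
  have hT0 : 0 < T₀ := lt_min hT₁ one_pos
  have hT1 : T₀ ≤ T₁ := min_le_left _ _
  have hTo : T₀ ≤ 1 := min_le_right _ _
  -- scaling
  have S1 : ∀ (v : E 2 → E m) (c : E 2) (r : ℝ), 0 < r → r ≤ 1 → TM m L T₀ (ball c r) v →
      TM m L T₀ (ball 0 1) (fun y => v (c + r • y)) ∧
      (∀ y ∈ ball (0 : E 2) 1, en (fun y => v (c + r • y)) y = r ^ 2 * en v (c + r • y)) ∧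
      engy (fun y => v (c + r • y)) (ball 0 1) = engy v (ball c r) ∧
      hInt (fun y => v (c + r • y)) (ball 0 (1 / 2)) = hInt v (ball c (r / 2)) := by
    intro v c r hr hr1 h
    obtain ⟨h1, h2, h3⟩ := hTMZ m L T₀ v c r 1 hL hT0.le hr hr1 one_pos (by rw [mul_one]; exact h)
    have h4 := h3 1 one_pos le_rfl
    have h5 := h3 (1 / 2) (by norm_num) (by norm_num)
    refine ⟨TM.mono h1 (by nlinarith) Subset.rfl, h2, ?_, ?_⟩
    · rw [h4.1, mul_one]
    · rw [h5.2.1]
      congr 2
      ring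
  -- use of the hypothesis at a smaller scale
  have S2 : ∀ (Λ K : ℝ), (∀ v : E 2 → E m, TM m L T₀ (ball 0 1) v →
      engy v (ball 0 1) ≤ ENNReal.ofReal Λ → hInt v (ball 0 (1 / 2)) ≤ ENNReal.ofReal K) →
      ∀ (v : E 2 → E m) (c : E 2) (r : ℝ), 0 < r → r ≤ 1 → TM m L T₀ (ball c r) v →
      engy v (ball c r) ≤ ENNReal.ofReal Λ → hInt v (ball c (r / 2)) ≤ ENNReal.ofReal K := by
    intro Λ K hK v c r hr hr1 h he
    obtain ⟨h1, _, h3, h4⟩ := S1 v c r hr hr1 h
    rw [← h4]
    exact hK _ h1 (by rw [h3]; exact he)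
  have S3 : ∀ (v : E 2 → E m) (c : E 2) (r : ℝ), 0 < r → r ≤ 1 → TM m L T₀ (ball c r) v →
      engy v (ball c r) ≤ ENNReal.ofReal ε → ∀ x ∈ ball c (r / 2),
      r ^ 2 * en v x ≤ (d / 4) ^ 2 := by
    intro v c r hr hr1 h he x hx
    obtain ⟨h1, h2, h3, _⟩ := S1 v c r hr hr1 h
    have h4 := hEP _ (TM.mono h1 hT1 Subset.rfl) (by rw [h3]; exact he)
    have e1 : c + r • (r⁻¹ • (x - c)) = x := by
      rw [smul_smul, mul_inv_cancel₀ hr.ne', one_smul]
      abel
    have h5 : r⁻¹ • (x - c) ∈ ball (0 : E 2) (1 / 2) := by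
      rw [mem_ball_zero_iff, norm_smul, norm_inv, Real.norm_eq_abs, abs_of_pos hr]
      rw [mem_ball, dist_eq_norm] at hx
      rw [inv_mul_lt_iff₀ hr]
      linarith
    have h6 := h4 _ h5
    rw [h2 _ (ball_subset_ball (by norm_num) h5), e1] at h6
    exact h6
  refine ⟨T₀, ε, hT0, hε, ?_, ?_⟩
  · -- base
    obtain ⟨C, hC, hLH⟩ := hLH2 m L T₀ hL hT0.le
    obtain ⟨M, hM⟩ := hCOV 2 4
    refine ⟨M * C, by positivity, ?_⟩
    intro v hv hE
    refine hInt_cover hM v 0 (1 / 8) _ C hC (by norm_num) ?_ ?_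
    · intro y hy
      rw [mem_ball] at hy
      rw [mem_closedBall]
      push_cast
      linarith
    · intro c hc
      rw [mem_ball, dist_zero_right] at hc
      have sub : ∀ r : ℝ, r ≤ 1 / 2 → ball c r ⊆ ball (0 : E 2) 1 := by
        intro r hr y hy
        rw [mem_ball] at hy
        rw [mem_ball, dist_zero_right]
        have := norm_le_norm_add_norm_sub' y c
        rw [dist_eq_norm] at hy
        linarith
      have h1 := S3 v c (1 / 2) (by norm_num) (by norm_num)
        (TM.mono hv le_rfl (sub _ le_rfl)) ((engy_mono v (sub _ le_rfl)).trans hE)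
      have hen : ∀ x ∈ ball c (1 / 4), en v x ≤ 1 := by
        intro x hx
        have h2 := h1 x (by
          rw [mem_ball] at hx ⊢
          linarith)
        nlinarith
      have hTM4 : TM m L T₀ (ball c (1 / 4)) v := TM.mono hv le_rfl (sub _ (by norm_num))
      obtain ⟨g1, g2, _, g4⟩ := S1 v c (1 / 4) (by norm_num) (by norm_num) hTM4
      have h3 := hLH _ g1 (by
        intro y hy
        rw [g2 y hy]
        have h4 := hen (c + (1 / 4 : ℝ) • y) (by
          rw [mem_ball, dist_eq_norm, add_sub_cancel_left, norm_smul]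
          rw [mem_ball_zero_iff] at hy
          rw [Real.norm_eq_abs, abs_of_pos (by norm_num)]
          linarith)
        have h5 := en_nonneg v (c + (1 / 4 : ℝ) • y)
        nlinarith)
      rw [g4] at h3
      have e1 : (1 / 4 : ℝ) / 2 = 1 / 8 := by norm_num
      rw [e1] at h3
      exact h3
  · -- step
    intro Λ hΛ hPB
    obtain ⟨K, hK, hPB⟩ := hPB
    have hΛ0 : 0 < Λ := hε.trans_le hΛ
    obtain ⟨M₁, hM₁⟩ := hCOV 2 32
    obtain ⟨M₂, hM₂⟩ := hCOV 2 8
    obtain ⟨M₃, hM₃⟩ := hCOV 2 64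
    obtain ⟨K₁, hK₁, hN⟩ := hNC (Λ + ε) (by positivity)
    refine ⟨M₁ * K + (M₂ * K + K₁ + M₃ * K), by positivity, ?_⟩
    intro v hv hE
    have sub : ∀ (c : E 2) (r : ℝ), ‖c‖ + r ≤ 1 → ball c r ⊆ ball (0 : E 2) 1 := by
      intro c r hr y hy
      rw [mem_ball, dist_eq_norm] at hy
      rw [mem_ball, dist_zero_right]
      have := norm_le_norm_add_norm_sub' y c
      linarith
    have hS2 := S2 Λ K hPB
    have hbd : ∃ B : ℝ≥0∞, B ≠ ⊤ ∧ ∀ x ∈ ball (0 : E 2) (7 / 8), ENNReal.ofReal (en v x) ≤ B := by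
      have hco := (continuousOn_en isOpen_ball hv.smooth).mono
        (closedBall_subset_ball (show (7 / 8 : ℝ) < 1 by norm_num) : closedBall (0 : E 2) _ ⊆ _)
      obtain ⟨B, hB⟩ := (isCompact_closedBall (0 : E 2) (7 / 8)).exists_bound_of_continuousOn hco
      refine ⟨ENNReal.ofReal B, ENNReal.ofReal_ne_top, fun x hx => ?_⟩
      apply ENNReal.ofReal_le_ofReal
      exact (Real.le_norm_self _).trans (hB x (ball_subset_closedBall hx))
    have hcase := hSCL (fun x => ENNReal.ofReal (en v x)) Λ ε (1 / 32)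
      (measurable_en v).ennreal_ofReal hΛ0 hε (by norm_num) (by norm_num) hE hbd
    rcases hcase with h1 | ⟨x₀, hx₀, r₀, hr₀, hr₁, hin, hout⟩
    · -- no concentration
      have h2 : hInt v (ball 0 (1 / 2)) ≤ ENNReal.ofReal (M₁ * K) := by
        refine hInt_cover hM₁ v 0 (1 / 64) _ K hK (by norm_num) ?_ ?_
        · intro y hy
          rw [mem_ball] at hy
          rw [mem_closedBall]
          push_cast
          linarith
        · intro c hc
          rw [mem_ball, dist_zero_right] at hc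
          have h3 := hS2 v c (1 / 32) (by norm_num) (by norm_num)
            (TM.mono hv le_rfl (sub c _ (by linarith)))
            (h1 c (by rw [mem_closedBall, dist_zero_right]; linarith))
          have e1 : (1 / 32 : ℝ) / 2 = 1 / 64 := by norm_num
          rw [e1] at h3
          exact h3
      refine h2.trans (ENNReal.ofReal_le_ofReal ?_)
      have : 0 ≤ M₂ * K + K₁ + M₃ * K := by positivity
      linarith
    · -- concentration
      rw [mem_closedBall, dist_zero_right] at hx₀
      have hsplit : ball (0 : E 2) (1 / 2) ⊆ (ball 0 (1 / 2) ∩ closedBall x₀ (4 * r₀)) ∪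
          (ball x₀ (1 / 16) \ closedBall x₀ (4 * r₀)) ∪ (ball 0 (1 / 2) \ ball x₀ (1 / 16)) := by
        intro y hy
        by_cases hy1 : y ∈ ball x₀ (1 / 16)
        · by_cases hy2 : y ∈ closedBall x₀ (4 * r₀)
          · exact Or.inl (Or.inl ⟨hy, hy2⟩)
          · exact Or.inl (Or.inr ⟨hy1, hy2⟩)
        · exact Or.inr ⟨hy, hy1⟩
      have ha : hInt v (ball 0 (1 / 2) ∩ closedBall x₀ (4 * r₀)) ≤ ENNReal.ofReal (M₂ * K) := by
        refine hInt_cover hM₂ v x₀ (r₀ / 2) _ K hK (by positivity) ?_ ?_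
        · intro y hy
          have h2 := hy.2
          rw [mem_closedBall] at h2 ⊢
          push_cast
          linarith
        · intro c hc
          have hc1 := hc.1
          rw [mem_ball, dist_zero_right] at hc1
          exact hS2 v c r₀ hr₀ (by linarith) (TM.mono hv le_rfl (sub c _ (by linarith)))
            (hin c (by rw [mem_closedBall, dist_zero_right]; linarith))
      have hc' : hInt v (ball 0 (1 / 2) \ ball x₀ (1 / 16)) ≤ ENNReal.ofReal (M₃ * K) := by
        refine hInt_cover hM₃ v 0 (1 / 128) _ K hK (by norm_num) ?_ ?_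
        · intro y hy
          have h2 := hy.1
          rw [mem_ball] at h2
          rw [mem_closedBall]
          push_cast
          linarith
        · intro c hc
          have hc1 := hc.1
          rw [mem_ball, dist_zero_right] at hc1
          have hc2 : 1 / 16 ≤ dist c x₀ := not_lt.1 hc.2
          have h5 : ball c (1 / 64) ⊆ ball (0 : E 2) 1 \ ball x₀ (1 / 32) := by
            intro y hy
            refine ⟨sub c _ (by linarith) hy, ?_⟩
            intro hy2
            rw [mem_ball] at hy hy2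
            have := dist_triangle_left c x₀ y
            linarith
          have h3 := hS2 v c (1 / 64) (by norm_num) (by norm_num)
            (TM.mono hv le_rfl (sub c _ (by linarith)))
            ((engy_mono v h5).trans ((hout (1 / 32) hr₁).trans (ENNReal.ofReal_le_ofReal hΛ)))
          have e1 : (1 / 64 : ℝ) / 2 = 1 / 128 := by norm_num
          rw [e1] at h3
          exact h3
      have hb : hInt v (ball x₀ (1 / 16) \ closedBall x₀ (4 * r₀)) ≤ ENNReal.ofReal K₁ := by
        have hsub8 : ball x₀ (1 / 16 * 2) ⊆ ball (0 : E 2) 1 := sub x₀ _ (by linarith)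
        obtain ⟨g1, g2, g3⟩ := hTMZ m L T₀ v x₀ (1 / 16) 2 hL hT0.le (by norm_num) (by norm_num)
          (by norm_num) (TM.mono hv le_rfl hsub8)
        have g4 := (g3 2 (by norm_num) le_rfl).1
        have g5 := (g3 1 (by norm_num) (by norm_num)).2.2 (2 * (32 * r₀)) (by positivity)
        have h7 := hN (fun y => v (x₀ + (1 / 16 : ℝ) • y)) (32 * r₀)
          (TM.mono g1 (by linarith) Subset.rfl)
          (by rw [g4]; exact (engy_mono v hsub8).trans hE) (by positivity) (by linarith) (by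
            intro y hy hya
            rw [g2 y hy]
            rw [mem_ball_zero_iff] at hy
            set x := x₀ + (1 / 16 : ℝ) • y with hx
            have hτ : dist x x₀ = ‖y‖ / 16 := by
              rw [hx, dist_eq_norm, add_sub_cancel_left, norm_smul, Real.norm_eq_abs,
                abs_of_pos (by norm_num)]
              ring
            have hxn : ‖x‖ ≤ 5 / 8 + ‖y‖ / 16 := by
              have h8 := norm_le_norm_add_norm_sub' x x₀
              rw [← dist_eq_norm, hτ] at h8
              linarith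
            have hsubx : ball x (‖y‖ / 32) ⊆ ball (0 : E 2) 1 := sub x _ (by linarith)
            have hsx : ball x (‖y‖ / 32) ⊆ ball (0 : E 2) 1 \ ball x₀ (‖y‖ / 32) := by
              intro z hz
              refine ⟨hsubx hz, ?_⟩
              intro hz2
              rw [mem_ball] at hz hz2
              have := dist_triangle_left x x₀ z
              linarith
            have h9 := S3 v x (‖y‖ / 32) (by linarith [hr₀]) (by linarith)
              (TM.mono hv le_rfl hsubx)
              ((engy_mono v hsx).trans (hout (‖y‖ / 32) (by linarith))) x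
              (mem_ball_self (by linarith [hr₀]))
            have h10 := en_nonneg v x
            have h11 : d ^ 2 ≤ δ ^ 2 := pow_le_pow_left₀ hd0.le hdδ 2
            nlinarith)
        rw [g5] at h7
        have e1 : (1 / 16 : ℝ) * 1 = 1 / 16 := by norm_num
        have e2 : (1 / 16 : ℝ) * (2 * (32 * r₀)) = 4 * r₀ := by ring
        rw [e1, e2] at h7
        exact h7
      calc hInt v (ball 0 (1 / 2)) ≤ _ := hInt_mono v hsplit
        _ ≤ hInt v (ball 0 (1 / 2) ∩ closedBall x₀ (4 * r₀)) +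
            hInt v (ball x₀ (1 / 16) \ closedBall x₀ (4 * r₀)) +
            hInt v (ball 0 (1 / 2) \ ball x₀ (1 / 16)) :=
            (hInt_union v _ _).trans (add_le_add_left (hInt_union v _ _) _)
        _ ≤ ENNReal.ofReal (M₂ * K) + ENNReal.ofReal K₁ + ENNReal.ofReal (M₃ * K) :=
            add_le_add (add_le_add ha hb) hc'
        _ = ENNReal.ofReal (M₂ * K + K₁ + M₃ * K) := by
            rw [← ENNReal.ofReal_add (by positivity) hK₁,
              ← ENNReal.ofReal_add (by positivity) (by positivity)]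
        _ ≤ ENNReal.ofReal (M₁ * K + (M₂ * K + K₁ + M₃ * K)) := by
            apply ENNReal.ofReal_le_ofReal
            have : 0 ≤ M₁ * K := by positivity
            linarith

end Pool.Agent.H35.AX
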