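import Pool.Agent.H35.AX.SLTa

/-!
# Row SLT of the board `axs_modules` (MP_2697e3_an)
-/

set_option autoImplicit false

namespace Pool.Agent.H35.AX

open Pool.Agent.H87.SN Pool.Agent.H87.SH Pool.Agent.H87.AX
open MeasureTheory Metric Set Filter Topology
open scoped ContDiff RealInnerProductSpace ENNReal

noncomputable section

theorem sqrt_three {x y z : ℝ} (hx : 0 ≤ x) (hy : 0 ≤ y) (hz : 0 ≤ z) :
    Real.sqrt (2 * x ^ 2 + 2 * y ^ 2 + z ^ 2) ≤ 2 * x + 2 * y + z := by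
  apply Real.sqrt_le_iff.2
  constructor
  · positivity
  · have h1 := mul_nonneg hx hy
    have h2 := mul_nonneg hx hz
    have h3 := mul_nonneg hy hz
    have h4 := sq_nonneg x
    have h5 := sq_nonneg y
    have e : (2 * x + 2 * y + z) ^ 2 = 4 * x ^ 2 + 4 * y ^ 2 + z ^ 2 + 8 * (x * y) + 4 * (x * z) +
        4 * (y * z) := by ring
    rw [e]
    linarith

theorem pf_SLT (hAXF : T_AXF) (hGE2 : T_GE2) : T_SLT := by
  intro m N A P hN hA hP
  obtain ⟨CA, hCA, hG⟩ := hGE2 m N A hN hA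
  obtain ⟨B₀, hB₀⟩ := hN.isBounded.exists_norm_le
  set B := max B₀ 0 with hBdef
  have hB0 : 0 ≤ B := le_max_right _ _
  have hB : ∀ q ∈ N, ‖q‖ ≤ B := fun q hq => (hB₀ q hq).trans (le_max_left _ _)
  set k := ‖deriv P 0‖ with hk
  have hk0 : 0 ≤ k := norm_nonneg _
  set T₀ := CA * (k * B) ^ 2 + k * (k * B) + 1 with hT
  have hT0 : 0 ≤ T₀ := by positivity
  set M := k + k * B + k * (k * B) + 1 with hM
  have hM0 : 0 ≤ M := by positivity
  refine ⟨CA + 2 * T₀, T₀, 160 * M, by positivity, hT0, by positivity, ?_⟩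
  intro u hu p hp
  refine ⟨fun y hy => (posn_mem hp hy).1, ?_, ?_⟩
  · -- the tension
    have hval : ∀ y ∈ ball (0 : E 2) 1, slc u p y ∈ N := fun y hy => hu.val _ (posn_mem hp hy).1
    have hsm := slc_smooth hu.smooth hp
    have hten : ∀ y ∈ ball (0 : E 2) 1, ∃ t : E m, ‖t‖ ≤ T₀ * (1 + Real.sqrt (en (slc u p) y)) ∧
        lap (slc u p) y = -(A (slc u p y) (fderiv ℝ (slc u p) y (bv 0))
          (fderiv ℝ (slc u p) y (bv 0))) -
          A (slc u p y) (fderiv ℝ (slc u p) y (bv 1)) (fderiv ℝ (slc u p) y (bv 1)) + t := by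
      intro y hy
      obtain ⟨c, r, D, H, hc, hc0, hr0, hcr, hD, hH, hD1, hH01, hH11, hH21, hs1, hs2, hF0, hF1,
        hS00, hS01, hS10, hS11, hpde⟩ := slc_point hAXF hP hu hp hy
      refine ⟨-(c ^ 2 • (A (slc u p y) (D 1) (D 1) + H 1 1)), ?_, ?_⟩
      · have hA1 : ‖A (slc u p y) (D 1) (D 1)‖ ≤ CA * ‖D 1‖ ^ 2 := by
          have h1 := (hG (1 + 2) offAxis u slt_open hu.smooth hu.val (posn p y)
            (posn_mem hp hy).1 (bv 1) 0 0).2.1
          rw [hD] at h1
          exact h1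
        have hKu : ‖deriv P 0 (slc u p y)‖ ≤ k * B :=
          (ContinuousLinearMap.le_opNorm _ _).trans
            (mul_le_mul_of_nonneg_left (hB _ (hval y hy)) hk0)
        have hD1n : ‖D 1‖ ≤ r * (k * B) := by
          rw [hD1, norm_smul, Real.norm_eq_abs, abs_of_nonneg hr0]
          exact mul_le_mul_of_nonneg_left hKu hr0
        have hcD1 : c * ‖D 1‖ ≤ 1 / 3 * (k * B) := by
          have h1 : c * ‖D 1‖ ≤ c * (r * (k * B)) := mul_le_mul_of_nonneg_left hD1n hc0.le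
          have h2 : c * r * (k * B) ≤ 1 / 3 * (k * B) :=
            mul_le_mul_of_nonneg_right hcr (by positivity)
          linarith
        have hcD0 : c * ‖D 0‖ ≤ Real.sqrt (en (slc u p) y) := by
          have h1 := norm_le_sqrt_en (slc u p) y 0
          rw [hF0, norm_smul, Real.norm_eq_abs, abs_of_pos hc0] at h1
          exact h1
        have hH11n : ‖H 1 1‖ ≤ r * (k * ‖D 1‖ + ‖D 0‖) := by
          rw [hH11, norm_smul, Real.norm_eq_abs, abs_of_nonneg hr0]
          apply mul_le_mul_of_nonneg_left _ hr0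
          exact (norm_add_le _ _).trans (add_le_add (ContinuousLinearMap.le_opNorm _ _) le_rfl)
        have hq : 0 ≤ Real.sqrt (en (slc u p) y) := Real.sqrt_nonneg _
        rw [norm_neg, norm_smul, Real.norm_eq_abs, abs_of_nonneg (by positivity)]
        have h1 : c ^ 2 * ‖A (slc u p y) (D 1) (D 1)‖ ≤ CA * (k * B) ^ 2 := by
          have h2 : c ^ 2 * ‖A (slc u p y) (D 1) (D 1)‖ ≤ c ^ 2 * (CA * ‖D 1‖ ^ 2) :=
            mul_le_mul_of_nonneg_left hA1 (by positivity)
          have h3 : (c * ‖D 1‖) ^ 2 ≤ (1 / 3 * (k * B)) ^ 2 :=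
            pow_le_pow_left₀ (by positivity) hcD1 2
          have h4 : CA * (c * ‖D 1‖) ^ 2 ≤ CA * (1 / 3 * (k * B)) ^ 2 :=
            mul_le_mul_of_nonneg_left h3 hCA
          have h5 : 0 ≤ CA * (k * B) ^ 2 := by positivity
          linarith
        have h2 : c ^ 2 * ‖H 1 1‖ ≤ k * (k * B) + Real.sqrt (en (slc u p) y) := by
          have h3 : c ^ 2 * ‖H 1 1‖ ≤ c ^ 2 * (r * (k * ‖D 1‖ + ‖D 0‖)) :=
            mul_le_mul_of_nonneg_left hH11n (by positivity)
          have h4 : c ^ 2 * (r * (k * ‖D 1‖ + ‖D 0‖)) =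
              (c * r) * (k * (c * ‖D 1‖) + c * ‖D 0‖) := by ring
          have h5 : k * (c * ‖D 1‖) + c * ‖D 0‖ ≤
              k * (1 / 3 * (k * B)) + Real.sqrt (en (slc u p) y) :=
            add_le_add (mul_le_mul_of_nonneg_left hcD1 hk0) hcD0
          have h6 : (c * r) * (k * (c * ‖D 1‖) + c * ‖D 0‖) ≤
              1 / 3 * (k * (1 / 3 * (k * B)) + Real.sqrt (en (slc u p) y)) :=
            mul_le_mul hcr h5 (by positivity) (by norm_num)
          have h7 : 0 ≤ k * (k * B) := by positivity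
          linarith
        have h3 : c ^ 2 * ‖A (slc u p y) (D 1) (D 1) + H 1 1‖ ≤
            c ^ 2 * ‖A (slc u p y) (D 1) (D 1)‖ + c ^ 2 * ‖H 1 1‖ := by
          rw [← mul_add]
          exact mul_le_mul_of_nonneg_left (norm_add_le _ _) (by positivity)
        have h4 : 0 ≤ CA * (k * B) ^ 2 + k * (k * B) := by positivity
        have h5 : 0 ≤ (CA * (k * B) ^ 2 + k * (k * B)) * Real.sqrt (en (slc u p) y) := by
          positivity
        rw [hT]
        linarith
      · unfold lap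
        rw [sum2, hS00, hS11, hF0, hF1]
        simp only [map_smul, smul_apply]
        have h1 : H 0 0 + H 2 2 = -(A (slc u p y) (D 0) (D 0) + A (slc u p y) (D 1) (D 1) +
            A (slc u p y) (D 2) (D 2)) - H 1 1 := by
          rw [← hpde]
          abel
        have h2 : c ^ 2 • H 0 0 + c ^ 2 • H 2 2 = c ^ 2 • (H 0 0 + H 2 2) := by module
        rw [h2, h1]
        module
    have hgeo : ∀ y ∈ ball (0 : E 2) 1, ∀ h k l : E 2,
        ⟪fderiv ℝ (slc u p) y h, A (slc u p y) (fderiv ℝ (slc u p) y k)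
          (fderiv ℝ (slc u p) y k)⟫ = 0 ∧
        ‖A (slc u p y) (fderiv ℝ (slc u p) y h) (fderiv ℝ (slc u p) y h)‖ ≤
          CA * ‖fderiv ℝ (slc u p) y h‖ ^ 2 ∧
        |⟪fderiv ℝ (fderiv ℝ (slc u p)) y h h + fderiv ℝ (slc u p) y k,
          A (slc u p y) (fderiv ℝ (slc u p) y l) (fderiv ℝ (slc u p) y l)⟫| ≤
          CA * ‖fderiv ℝ (slc u p) y h‖ ^ 2 * ‖fderiv ℝ (slc u p) y l‖ ^ 2 :=
      hG 2 (ball 0 1) (slc u p) isOpen_ball hsm hval
    have hen : ∀ y : E 2, en (slc u p) y = ‖fderiv ℝ (slc u p) y (bv 0)‖ ^ 2 +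
        ‖fderiv ℝ (slc u p) y (bv 1)‖ ^ 2 := fun y => by
      unfold en nsq
      rw [sum2]
    refine ⟨hsm, ?_, ?_, ?_⟩
    · intro y hy
      obtain ⟨t, ht, hl⟩ := hten y hy
      have g0 := (hgeo y hy (bv 0) 0 0).2.1
      have g1 := (hgeo y hy (bv 1) 0 0).2.1
      have he := hen y
      have he0 : 0 ≤ en (slc u p) y := by rw [he]; positivity
      have hq := sqrt_le_half _ he0
      rw [hl]
      have h1 : ‖-(A (slc u p y) (fderiv ℝ (slc u p) y (bv 0)) (fderiv ℝ (slc u p) y (bv 0))) -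
          A (slc u p y) (fderiv ℝ (slc u p) y (bv 1)) (fderiv ℝ (slc u p) y (bv 1)) + t‖ ≤
          ‖A (slc u p y) (fderiv ℝ (slc u p) y (bv 0)) (fderiv ℝ (slc u p) y (bv 0))‖ +
          ‖A (slc u p y) (fderiv ℝ (slc u p) y (bv 1)) (fderiv ℝ (slc u p) y (bv 1))‖ + ‖t‖ := by
        refine (norm_add_le _ _).trans (add_le_add ((norm_sub_le _ _).trans ?_) le_rfl)
        rw [norm_neg]
      have h2 : T₀ * (1 + Real.sqrt (en (slc u p) y)) ≤ T₀ * (2 * (1 + en (slc u p) y)) :=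
        mul_le_mul_of_nonneg_left (by linarith) hT0
      have h3 : CA * en (slc u p) y = CA * ‖fderiv ℝ (slc u p) y (bv 0)‖ ^ 2 +
          CA * ‖fderiv ℝ (slc u p) y (bv 1)‖ ^ 2 := by
        rw [he]
        ring
      linarith
    · intro y hy h
      obtain ⟨t, ht, hl⟩ := hten y hy
      have g0 := (hgeo y hy h (bv 0) 0).1
      have g1 := (hgeo y hy h (bv 1) 0).1
      rw [hl, inner_add_right, inner_sub_right, inner_neg_right, g0, g1]
      simp only [neg_zero, sub_zero, zero_add]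
      refine (abs_real_inner_le_norm _ _).trans ?_
      rw [mul_comm]
      exact mul_le_mul_of_nonneg_right ht (norm_nonneg _)
    · intro y hy h k'
      obtain ⟨t, ht, hl⟩ := hten y hy
      have g0 := (hgeo y hy h k' (bv 0)).2.2
      have g1 := (hgeo y hy h k' (bv 1)).2.2
      have he := hen y
      have he0 : 0 ≤ en (slc u p) y := by rw [he]; positivity
      rw [hl, inner_add_right, inner_sub_right, inner_neg_right]
      set X := fderiv ℝ (fderiv ℝ (slc u p)) y h h + fderiv ℝ (slc u p) y k' with hX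
      have h1 : |⟪X, t⟫| ≤ T₀ * (1 + Real.sqrt (en (slc u p) y)) * ‖X‖ := by
        refine (abs_real_inner_le_norm _ _).trans ?_
        rw [mul_comm]
        exact mul_le_mul_of_nonneg_right ht (norm_nonneg _)
      have h2 := abs_le.1 g0
      have h3 := abs_le.1 g1
      have h4 := abs_le.1 h1
      have h5 : 0 ≤ 2 * T₀ * ‖fderiv ℝ (slc u p) y h‖ ^ 2 * en (slc u p) y := by positivity
      have h6 : CA * ‖fderiv ℝ (slc u p) y h‖ ^ 2 * ‖fderiv ℝ (slc u p) y (bv 0)‖ ^ 2 +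
          CA * ‖fderiv ℝ (slc u p) y h‖ ^ 2 * ‖fderiv ℝ (slc u p) y (bv 1)‖ ^ 2 =
          CA * ‖fderiv ℝ (slc u p) y h‖ ^ 2 * en (slc u p) y := by
        rw [he]
        ring
      have h7 : (CA + 2 * T₀) * ‖fderiv ℝ (slc u p) y h‖ ^ 2 * en (slc u p) y =
          CA * ‖fderiv ℝ (slc u p) y h‖ ^ 2 * en (slc u p) y +
          2 * T₀ * ‖fderiv ℝ (slc u p) y h‖ ^ 2 * en (slc u p) y := by ring
      rw [abs_le, h7]
      constructor <;> linarith
  · -- energy and Hessian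
    intro y hy
    obtain ⟨c, r, D, H, hc, hc0, hr0, hcr, hD, hH, hD1, hH01, hH11, hH21, hs1, hs2, hF0, hF1,
      hS00, hS01, hS10, hS11, hpde⟩ := slc_point hAXF hP hu hp hy
    have hen : en (slc u p) y = c ^ 2 * (‖D 0‖ ^ 2 + ‖D 2‖ ^ 2) := by
      unfold en nsq
      rw [sum2, hF0, hF1, norm_smul, norm_smul, Real.norm_eq_abs, abs_of_pos hc0]
      ring
    have hp4 : p.1 = 4 * c := by rw [hc]; ring
    constructor
    · have h1 : en u (posn p y) = ‖D 0‖ ^ 2 + ‖D 1‖ ^ 2 + ‖D 2‖ ^ 2 := by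
        unfold en nsq
        rw [sum3, hD, hD, hD]
      rw [h1, hen, hp4]
      have h2 : 0 ≤ c ^ 2 * ‖D 1‖ ^ 2 := by positivity
      linarith
    · have he0 : 0 ≤ en (slc u p) y := by rw [hen]; positivity
      have hval : slc u p y ∈ N := hu.val _ (posn_mem hp hy).1
      have hh : hsq u (posn p y) = (‖H 0 0‖ ^ 2 + ‖H 0 2‖ ^ 2 + ‖H 2 0‖ ^ 2 + ‖H 2 2‖ ^ 2) +
          (2 * ‖H 0 1‖ ^ 2 + 2 * ‖H 2 1‖ ^ 2 + ‖H 1 1‖ ^ 2) := by
        unfold hsq
        rw [sum3, sum3, sum3, sum3]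
        simp only [hH, hs1, hs2]
        ring
      have hh2 : hsq (slc u p) y =
          c ^ 4 * (‖H 0 0‖ ^ 2 + ‖H 0 2‖ ^ 2 + ‖H 2 0‖ ^ 2 + ‖H 2 2‖ ^ 2) := by
        unfold hsq
        rw [sum2, sum2, sum2, hS00, hS01, hS10, hS11]
        simp only [norm_smul, Real.norm_eq_abs, abs_of_nonneg (sq_nonneg c)]
        ring
      have hKu : ‖deriv P 0 (slc u p y)‖ ≤ k * B :=
        (ContinuousLinearMap.le_opNorm _ _).trans (mul_le_mul_of_nonneg_left (hB _ hval) hk0)
      have hq : 0 ≤ Real.sqrt (en (slc u p) y) := Real.sqrt_nonneg _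
      have hcD1 : c * ‖D 1‖ ≤ k * B := by
        rw [hD1, norm_smul, Real.norm_eq_abs, abs_of_nonneg hr0, ← mul_assoc]
        have h1 : c * r * ‖deriv P 0 (slc u p y)‖ ≤ 1 / 3 * (k * B) :=
          mul_le_mul hcr hKu (norm_nonneg _) (by norm_num)
        have h2 : 0 ≤ k * B := by positivity
        linarith
      have hcD0 : c * ‖D 0‖ ≤ Real.sqrt (en (slc u p) y) := by
        have h1 := norm_le_sqrt_en (slc u p) y 0
        rw [hF0, norm_smul, Real.norm_eq_abs, abs_of_pos hc0] at h1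
        exact h1
      have hcD2 : c * ‖D 2‖ ≤ Real.sqrt (en (slc u p) y) := by
        have h1 := norm_le_sqrt_en (slc u p) y 1
        rw [hF1, norm_smul, Real.norm_eq_abs, abs_of_pos hc0] at h1
        exact h1
      have gen : ∀ v w : E m, ∀ a b : ℝ, c * ‖v‖ ≤ a → c * ‖w‖ ≤ b → 0 ≤ a → 0 ≤ b →
          c ^ 2 * ‖r • (deriv P 0 v + w)‖ ≤ k * a + b := by
        intro v w a b hv hw ha hb
        rw [norm_smul, Real.norm_eq_abs, abs_of_nonneg hr0]
        have h1 : ‖deriv P 0 v + w‖ ≤ k * ‖v‖ + ‖w‖ :=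
          (norm_add_le _ _).trans (add_le_add (ContinuousLinearMap.le_opNorm _ _) le_rfl)
        have h2 : c * ‖deriv P 0 v + w‖ ≤ k * a + b := by
          have h3 : c * ‖deriv P 0 v + w‖ ≤ c * (k * ‖v‖ + ‖w‖) :=
            mul_le_mul_of_nonneg_left h1 hc0.le
          have h4 : k * (c * ‖v‖) ≤ k * a := mul_le_mul_of_nonneg_left hv hk0
          linarith
        have h5 : c ^ 2 * (r * ‖deriv P 0 v + w‖) = (c * r) * (c * ‖deriv P 0 v + w‖) := by ring
        rw [h5]
        have h6 : (c * r) * (c * ‖deriv P 0 v + w‖) ≤ 1 / 3 * (k * a + b) :=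
          mul_le_mul hcr h2 (by positivity) (by norm_num)
        have h7 : 0 ≤ k * a := by positivity
        linarith
      have b01 : c ^ 2 * ‖H 0 1‖ ≤ M * (1 + Real.sqrt (en (slc u p) y)) := by
        have h1 := gen (D 0) (-(D 1)) _ _ hcD0 (by rw [norm_neg]; exact hcD1) hq
          (mul_nonneg hk0 hB0)
        rw [← sub_eq_add_neg, ← hH01] at h1
        refine h1.trans ?_
        rw [hM]
        have h2 : 0 ≤ k * B := by positivity
        have h3 : 0 ≤ k * (k * B) := by positivity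
        linarith [mul_nonneg h2 hq, mul_nonneg h3 hq, mul_nonneg hk0 hq]
      have b21 : c ^ 2 * ‖H 2 1‖ ≤ M * (1 + Real.sqrt (en (slc u p) y)) := by
        have h1 := gen (D 2) 0 _ 0 hcD2 (by simp) hq le_rfl
        rw [add_zero, ← hH21] at h1
        refine h1.trans ?_
        rw [hM]
        have h2 : 0 ≤ k * B := by positivity
        have h3 : 0 ≤ k * (k * B) := by positivity
        linarith [mul_nonneg h2 hq, mul_nonneg h3 hq, mul_nonneg hk0 hq]
      have b11 : c ^ 2 * ‖H 1 1‖ ≤ M * (1 + Real.sqrt (en (slc u p) y)) := by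
        have h1 := gen (D 1) (D 0) _ _ hcD1 hcD0 (by positivity) hq
        rw [← hH11] at h1
        refine h1.trans ?_
        rw [hM]
        have h2 : 0 ≤ k * B := by positivity
        have h3 : 0 ≤ k * (k * B) := by positivity
        linarith [mul_nonneg h2 hq, mul_nonneg h3 hq, mul_nonneg hk0 hq]
      set a := ‖H 0 0‖ ^ 2 + ‖H 0 2‖ ^ 2 + ‖H 2 0‖ ^ 2 + ‖H 2 2‖ ^ 2 with ha
      have ha0 : 0 ≤ a := by positivity
      have hsa : c ^ 2 * Real.sqrt a = Real.sqrt (hsq (slc u p) y) := by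
        rw [hh2, show c ^ 4 * a = (c ^ 2) ^ 2 * a by ring, Real.sqrt_mul (by positivity),
          Real.sqrt_sq (by positivity)]
      have hsb : Real.sqrt (2 * ‖H 0 1‖ ^ 2 + 2 * ‖H 2 1‖ ^ 2 + ‖H 1 1‖ ^ 2) ≤
          2 * ‖H 0 1‖ + 2 * ‖H 2 1‖ + ‖H 1 1‖ :=
        sqrt_three (norm_nonneg _) (norm_nonneg _) (norm_nonneg _)
      have hst : Real.sqrt (hsq u (posn p y)) ≤ Real.sqrt a +
          (2 * ‖H 0 1‖ + 2 * ‖H 2 1‖ + ‖H 1 1‖) := by
        rw [hh]
        refine le_trans ?_ (add_le_add (le_refl (Real.sqrt a)) hsb)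
        exact sqrt_add _ _ ha0 (by positivity)
      have hq2 := sqrt_le_half _ he0
      have h9 : M * (1 + Real.sqrt (en (slc u p) y)) ≤ M * (2 * (1 + en (slc u p) y)) :=
        mul_le_mul_of_nonneg_left (by linarith) hM0
      have h10 : c ^ 2 * Real.sqrt (hsq u (posn p y)) ≤ c ^ 2 * (Real.sqrt a +
          (2 * ‖H 0 1‖ + 2 * ‖H 2 1‖ + ‖H 1 1‖)) := mul_le_mul_of_nonneg_left hst (by positivity)
      rw [hp4]
      linarith

end

end Pool.Agent.H35.AX
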