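import Pool.Agent.H87.AX.Targets4

/-!
# Row SLT of the board `axs_modules` (MP_2697e3_an): lemmas
-/

set_option autoImplicit false

namespace Pool.Agent.H35.AX

open Pool.Agent.H87.SN Pool.Agent.H87.SH Pool.Agent.H87.AX
open MeasureTheory Metric Set Filter Topology
open scoped ContDiff RealInnerProductSpace ENNReal

noncomputable section

theorem slt_open : IsOpen offAxis := by
  have h1 : Continuous (fun x : E (1 + 2) => rho x) := by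
    unfold rho
    fun_prop
  exact isOpen_ball.inter (isOpen_lt continuous_const h1)

theorem sum3 {M : Type*} [AddCommMonoid M] (f : Fin (1 + 2) → M) :
    ∑ i, f i = f 0 + f 1 + f 2 := Fin.sum_univ_three f

theorem sum2 {M : Type*} [AddCommMonoid M] (f : Fin 2 → M) :
    ∑ i, f i = f 0 + f 1 := Fin.sum_univ_two f

/-- the linear part of the slice coordinates -/
def Lm : E 2 →L[ℝ] E (1 + 2) :=
  (EuclideanSpace.proj (0 : Fin 2) : E 2 →L[ℝ] ℝ).smulRight (bv (0 : Fin (1 + 2))) +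
  (EuclideanSpace.proj (1 : Fin 2) : E 2 →L[ℝ] ℝ).smulRight (bv (2 : Fin (1 + 2)))

theorem Lm_apply (y : E 2) : Lm y = y 0 • bv (0 : Fin (1 + 2)) + y 1 • bv (2 : Fin (1 + 2)) := by
  simp [Lm]

theorem Lm_bv0 : Lm (bv 0) = bv 0 := by
  rw [Lm_apply]; simp [bv]

theorem Lm_bv1 : Lm (bv 1) = bv 2 := by
  rw [Lm_apply]; simp [bv]

theorem posn_eq (p : ℝ × ℝ) (y : E 2) : posn p y = pt p.1 p.2 + (p.1 / 4) • Lm y := by
  rw [Lm_apply]
  unfold posn pt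
  module

theorem pt_0 (s τ : ℝ) : pt s τ 0 = s := by
  simp only [pt, bv, PiLp.add_apply, PiLp.smul_apply, smul_eq_mul]
  simp

theorem pt_1 (s τ : ℝ) : pt s τ 1 = 0 := by
  simp only [pt, bv, PiLp.add_apply, PiLp.smul_apply, smul_eq_mul]
  simp

theorem pt_2 (s τ : ℝ) : pt s τ 2 = τ := by
  simp only [pt, bv, PiLp.add_apply, PiLp.smul_apply, smul_eq_mul]
  simp

theorem rho_pt (s τ : ℝ) (hs : 0 ≤ s) : rho (pt s τ) = s := by
  unfold rho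
  rw [pt_0, pt_1]
  rw [show s ^ 2 + 0 ^ 2 = s ^ 2 by ring, Real.sqrt_sq hs]

theorem norm_pt_sq (s τ : ℝ) : ‖pt s τ‖ ^ 2 = s ^ 2 + τ ^ 2 := by
  rw [EuclideanSpace.norm_sq_eq, sum3, pt_0, pt_1, pt_2]
  simp

theorem norm_Lm (y : E 2) : ‖Lm y‖ = ‖y‖ := by
  have h1 : Lm y = pt (y 0) (y 1) := by rw [Lm_apply]; rfl
  have h2 : ‖Lm y‖ ^ 2 = ‖y‖ ^ 2 := by
    rw [h1, norm_pt_sq, EuclideanSpace.norm_sq_eq, sum2]
    simp
  exact (sq_eq_sq₀ (norm_nonneg _) (norm_nonneg _)).1 h2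

theorem abs_coord_le (y : E 2) (i : Fin 2) : |y i| ≤ ‖y‖ := by
  have := PiLp.norm_apply_le y i
  simpa using this

theorem Jm_pt (s τ : ℝ) : Jm 1 (pt s τ) = s • bv 1 := by
  ext i
  have h : (Jm 1 (pt s τ)) i = if (i : ℕ) = 0 then - (pt s τ) 1 else
    if (i : ℕ) = 1 then (pt s τ) 0 else 0 := rfl
  rw [h, pt_0, pt_1]
  match i with
  | ⟨0, _⟩ => simp [bv]
  | ⟨1, _⟩ => simp [bv]
  | ⟨2, _⟩ => simp [bv]

theorem Jm_bv0 : Jm 1 (bv 0) = bv 1 := by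
  ext i
  have h : (Jm 1 (bv 0)) i = if (i : ℕ) = 0 then - (bv (0 : Fin (1 + 2)) : E (1 + 2)) 1 else
    if (i : ℕ) = 1 then (bv (0 : Fin (1 + 2)) : E (1 + 2)) 0 else 0 := rfl
  rw [h]
  match i with
  | ⟨0, _⟩ => simp [bv]
  | ⟨1, _⟩ => simp [bv]
  | ⟨2, _⟩ => simp [bv]

theorem Jm_bv1 : Jm 1 (bv 1) = - bv 0 := by
  ext i
  have h : (Jm 1 (bv 1)) i = if (i : ℕ) = 0 then - (bv (1 : Fin (1 + 2)) : E (1 + 2)) 1 else
    if (i : ℕ) = 1 then (bv (1 : Fin (1 + 2)) : E (1 + 2)) 0 else 0 := rfl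
  rw [h]
  match i with
  | ⟨0, _⟩ => simp [bv]
  | ⟨1, _⟩ => simp [bv]
  | ⟨2, _⟩ => simp [bv]

theorem Jm_bv2 : Jm 1 (bv 2) = 0 := by
  ext i
  have h : (Jm 1 (bv 2)) i = if (i : ℕ) = 0 then - (bv (2 : Fin (1 + 2)) : E (1 + 2)) 1 else
    if (i : ℕ) = 1 then (bv (2 : Fin (1 + 2)) : E (1 + 2)) 0 else 0 := rfl
  rw [h]
  match i with
  | ⟨0, _⟩ => simp [bv]
  | ⟨1, _⟩ => simp [bv]
  | ⟨2, _⟩ => simp

theorem posn_mem {p : ℝ × ℝ} (hp : p ∈ hbl) {y : E 2} (hy : y ∈ ball (0 : E 2) 1) :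
    posn p y ∈ offAxis ∧ 3 / 4 * p.1 ≤ p.1 * (1 + y 0 / 4) := by
  obtain ⟨h1, h2⟩ := hp
  rw [mem_ball_zero_iff] at hy
  have h3 := abs_coord_le y 0
  have h4 : -1 ≤ y 0 := by
    have := neg_abs_le (y 0)
    linarith
  have h5 : 3 / 4 * p.1 ≤ p.1 * (1 + y 0 / 4) := by nlinarith
  refine ⟨⟨?_, ?_⟩, h5⟩
  · rw [mem_ball_zero_iff, posn_eq]
    have h6 : ‖pt p.1 p.2‖ < 5 / 4 := by
      have h7 := norm_pt_sq p.1 p.2
      rw [← h7] at h2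
      exact lt_of_pow_lt_pow_left₀ 2 (by norm_num) h2
    have h8 : p.1 < 5 / 4 := by nlinarith [sq_nonneg p.2]
    have h9 : ‖(p.1 / 4) • Lm y‖ ≤ 5 / 16 := by
      rw [norm_smul, norm_Lm, Real.norm_eq_abs, abs_of_pos (by positivity)]
      nlinarith [norm_nonneg y]
    have := norm_add_le (pt p.1 p.2) ((p.1 / 4) • Lm y)
    linarith
  · change 0 < rho (pt (p.1 * (1 + y 0 / 4)) (p.2 + p.1 * y 1 / 4))
    rw [rho_pt _ _ (by nlinarith)]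
    nlinarith

theorem posn_hasFDerivAt (p : ℝ × ℝ) (y : E 2) : HasFDerivAt (posn p) ((p.1 / 4) • Lm) y := by
  have h1 : posn p = fun y => pt p.1 p.2 + ((p.1 / 4) • Lm) y := by
    funext z
    rw [posn_eq]
    rfl
  rw [h1]
  exact ((p.1 / 4) • Lm).hasFDerivAt.const_add _

theorem posn_contDiff (p : ℝ × ℝ) : ContDiff ℝ ∞ (posn p) := by
  have h1 : posn p = fun y => pt p.1 p.2 + ((p.1 / 4) • Lm) y := by
    funext z
    rw [posn_eq]
    rfl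
  rw [h1]
  exact contDiff_const.add ((p.1 / 4) • Lm).contDiff

theorem slc_smooth {m : ℕ} {u : E (1 + 2) → E m} (hu : ContDiffOn ℝ ∞ u offAxis) {p : ℝ × ℝ}
    (hp : p ∈ hbl) : ContDiffOn ℝ ∞ (slc u p) (ball 0 1) :=
  hu.comp (posn_contDiff p).contDiffOn fun _ hy => (posn_mem hp hy).1

theorem slc_fderiv {m : ℕ} {u : E (1 + 2) → E m} (hu : ContDiffOn ℝ ∞ u offAxis) {p : ℝ × ℝ}
    (hp : p ∈ hbl) {y : E 2} (hy : y ∈ ball (0 : E 2) 1) (k : E 2) :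
    fderiv ℝ (slc u p) y k = (p.1 / 4) • fderiv ℝ u (posn p y) (Lm k) := by
  have h1 : DifferentiableAt ℝ u (posn p y) :=
    (hu.contDiffAt (slt_open.mem_nhds (posn_mem hp hy).1)).differentiableAt (by norm_num)
  have h2 : HasFDerivAt (slc u p) ((fderiv ℝ u (posn p y)).comp ((p.1 / 4) • Lm)) y :=
    h1.hasFDerivAt.comp y (posn_hasFDerivAt p y)
  rw [h2.fderiv]
  simp

theorem slc_fderiv2 {m : ℕ} {u : E (1 + 2) → E m} (hu : ContDiffOn ℝ ∞ u offAxis) {p : ℝ × ℝ}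
    (hp : p ∈ hbl) {y : E 2} (hy : y ∈ ball (0 : E 2) 1) (h k : E 2) :
    fderiv ℝ (fderiv ℝ (slc u p)) y h k =
      (p.1 / 4) ^ 2 • fderiv ℝ (fderiv ℝ u) (posn p y) (Lm h) (Lm k) := by
  have hca : ContDiffAt ℝ ∞ u (posn p y) := hu.contDiffAt (slt_open.mem_nhds (posn_mem hp hy).1)
  have hcs : ContDiffAt ℝ ∞ (slc u p) y := (slc_smooth hu hp).contDiffAt (isOpen_ball.mem_nhds hy)
  have hd1 : DifferentiableAt ℝ (fderiv ℝ u) (posn p y) :=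
    (hca.fderiv_right (m := 1) (by norm_cast)).differentiableAt (by norm_num)
  have hd2 : DifferentiableAt ℝ (fderiv ℝ (slc u p)) y :=
    (hcs.fderiv_right (m := 1) (by norm_cast)).differentiableAt (by norm_num)
  have h1 : HasFDerivAt (fun z => fderiv ℝ (slc u p) z k)
      ((ContinuousLinearMap.apply ℝ (E m) k).comp (fderiv ℝ (fderiv ℝ (slc u p)) y)) y :=
    (ContinuousLinearMap.apply ℝ (E m) k).hasFDerivAt.comp y hd2.hasFDerivAt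
  have h2' : HasFDerivAt (fun z => fderiv ℝ u (posn p z) (Lm k))
      ((ContinuousLinearMap.apply ℝ (E m) (Lm k)).comp
        ((fderiv ℝ (fderiv ℝ u) (posn p y)).comp ((p.1 / 4) • Lm))) y :=
    (ContinuousLinearMap.apply ℝ (E m) (Lm k)).hasFDerivAt.comp y
      (hd1.hasFDerivAt.comp y (posn_hasFDerivAt p y))
  have h2 := h2'.const_smul (p.1 / 4)
  have h3 : (fun z => fderiv ℝ (slc u p) z k) =ᶠ[𝓝 y]
      fun z => (p.1 / 4) • fderiv ℝ u (posn p z) (Lm k) := by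
    filter_upwards [isOpen_ball.mem_nhds hy] with z hz
    exact slc_fderiv hu hp hz k
  have h4 := (h2.congr_of_eventuallyEq h3).unique h1
  have h5 := congrArg (fun T => T h) h4
  simp only [smul_apply, ContinuousLinearMap.comp_apply,
    ContinuousLinearMap.apply_apply, map_smul] at h5
  rw [← h5, smul_smul]
  ring_nf

theorem sqrt_le_half (x : ℝ) (hx : 0 ≤ x) : Real.sqrt x ≤ (1 + x) / 2 := by
  have h1 := Real.sq_sqrt hx
  nlinarith [sq_nonneg (Real.sqrt x - 1), Real.sqrt_nonneg x]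

theorem sqrt_add (a b : ℝ) (ha : 0 ≤ a) (hb : 0 ≤ b) :
    Real.sqrt (a + b) ≤ Real.sqrt a + Real.sqrt b := by
  apply Real.sqrt_le_iff.2
  have h1 := Real.sq_sqrt ha
  have h2 := Real.sq_sqrt hb
  have h3 := mul_nonneg (Real.sqrt_nonneg a) (Real.sqrt_nonneg b)
  exact ⟨by positivity, by nlinarith⟩

theorem norm_le_sqrt_en {m : ℕ} (v : E 2 → E m) (y : E 2) (i : Fin 2) :
    ‖fderiv ℝ v y (bv i)‖ ≤ Real.sqrt (en v y) := by
  apply Real.le_sqrt_of_sq_le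
  unfold en nsq
  exact Finset.single_le_sum (f := fun i => ‖fderiv ℝ v y (bv i)‖ ^ 2)
    (fun i _ => by positivity) (Finset.mem_univ i)

/-- The pointwise facts at one point of a slice. -/
theorem slc_point {m : ℕ} {N : Set (E m)} {A : E m → E m →L[ℝ] E m →L[ℝ] E m}
    {P : ℝ → E m →L[ℝ] E m} (hAXF : T_AXF) (hP : RotGroup m P) {u : E (1 + 2) → E m}
    (hu : AxData m N A P u) {p : ℝ × ℝ} (hp : p ∈ hbl) {y : E 2} (hy : y ∈ ball (0 : E 2) 1) :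
    ∃ c r : ℝ, ∃ D : Fin 3 → E m, ∃ H : Fin 3 → Fin 3 → E m,
      c = p.1 / 4 ∧ 0 < c ∧ 0 ≤ r ∧ c * r ≤ 1 / 3 ∧
      (∀ i, fderiv ℝ u (posn p y) (bv i) = D i) ∧
      (∀ i j, fderiv ℝ (fderiv ℝ u) (posn p y) (bv i) (bv j) = H i j) ∧
      D 1 = r • deriv P 0 (slc u p y) ∧
      H 0 1 = r • (deriv P 0 (D 0) - D 1) ∧ H 1 1 = r • (deriv P 0 (D 1) + D 0) ∧
      H 2 1 = r • deriv P 0 (D 2) ∧ H 1 0 = H 0 1 ∧ H 1 2 = H 2 1 ∧
      fderiv ℝ (slc u p) y (bv 0) = c • D 0 ∧ fderiv ℝ (slc u p) y (bv 1) = c • D 2 ∧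
      fderiv ℝ (fderiv ℝ (slc u p)) y (bv 0) (bv 0) = c ^ 2 • H 0 0 ∧
      fderiv ℝ (fderiv ℝ (slc u p)) y (bv 0) (bv 1) = c ^ 2 • H 0 2 ∧
      fderiv ℝ (fderiv ℝ (slc u p)) y (bv 1) (bv 0) = c ^ 2 • H 2 0 ∧
      fderiv ℝ (fderiv ℝ (slc u p)) y (bv 1) (bv 1) = c ^ 2 • H 2 2 ∧
      H 0 0 + H 1 1 + H 2 2 = -(A (slc u p y) (D 0) (D 0) + A (slc u p y) (D 1) (D 1) +
        A (slc u p y) (D 2) (D 2)) := by
  obtain ⟨hx, hs⟩ := posn_mem hp hy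
  have hp1 : 0 < p.1 := hp.1
  have hs0 : 0 < p.1 * (1 + y 0 / 4) := by linarith
  obtain ⟨-, hK1, hK2, -⟩ := hAXF m P u hP hu.smooth hu.axial
  have hJ : Jm 1 (posn p y) = (p.1 * (1 + y 0 / 4)) • bv 1 := Jm_pt _ _
  set s := p.1 * (1 + y 0 / 4) with hsdef
  have hinv : s⁻¹ * s = 1 := inv_mul_cancel₀ hs0.ne'
  have inv : ∀ v w : E m, s • v = w → v = s⁻¹ • w := by
    intro v w h
    rw [← h, smul_smul, hinv, one_smul]
  have hca : ContDiffAt ℝ ∞ u (posn p y) := hu.smooth.contDiffAt (slt_open.mem_nhds hx)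
  have hsym : ∀ v w : E (1 + 2), fderiv ℝ (fderiv ℝ u) (posn p y) v w =
      fderiv ℝ (fderiv ℝ u) (posn p y) w v := by
    have h1 : IsSymmSndFDerivAt ℝ u (posn p y) :=
      (hca.of_le (m := 2) (by norm_cast)).isSymmSndFDerivAt (by simp)
    exact fun v w => h1 v w
  refine ⟨p.1 / 4, s⁻¹, fun i => fderiv ℝ u (posn p y) (bv i),
    fun i j => fderiv ℝ (fderiv ℝ u) (posn p y) (bv i) (bv j), rfl, by positivity,
    by positivity, ?_, fun _ => rfl, fun _ _ => rfl, ?_, ?_, ?_, ?_, hsym _ _, hsym _ _, ?_, ?_,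
    ?_, ?_, ?_, ?_, ?_⟩
  · rw [← div_eq_mul_inv, div_le_iff₀ hs0]
    linarith
  · have h1 := hK1 _ hx
    rw [hJ, map_smul] at h1
    exact inv _ _ h1
  · have h1 := hK2 _ hx (bv 0)
    rw [hJ, Jm_bv0, map_smul] at h1
    apply inv
    rw [← h1]
    simp
  · have h1 := hK2 _ hx (bv 1)
    rw [hJ, Jm_bv1, map_smul, map_neg] at h1
    apply inv
    rw [← h1]
    simp
  · have h1 := hK2 _ hx (bv 2)
    rw [hJ, Jm_bv2, map_smul, map_zero] at h1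
    apply inv
    rw [← h1]
    simp
  · rw [slc_fderiv hu.smooth hp hy, Lm_bv0]
  · rw [slc_fderiv hu.smooth hp hy, Lm_bv1]
  · rw [slc_fderiv2 hu.smooth hp hy, Lm_bv0]
  · rw [slc_fderiv2 hu.smooth hp hy, Lm_bv0, Lm_bv1]
  · rw [slc_fderiv2 hu.smooth hp hy, Lm_bv0, Lm_bv1]
  · rw [slc_fderiv2 hu.smooth hp hy, Lm_bv1]
  · have h1 := hu.pde _ hx
    unfold lap at h1
    rw [sum3, sum3] at h1
    exact h1

end

end Pool.Agent.H35.AX
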